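import Pool.Agent.helper16.PU.Spec2

set_option autoImplicit false

namespace Pool.Agent.PU

/-- Compactness: an element of all `Z ⊔ L J` is in `Z ⊔ ⨅ L J`. -/
theorem CPT_inf (Γ : Type) [Group Γ] [TopologicalSpace Γ] [IsTopologicalGroup Γ] [CompactSpace Γ]
    (L : ℕ → Subgroup Γ) (Z : Subgroup Γ) (hL : Antitone L) (hN : ∀ j, (L j).Normal)
    (hLc : ∀ j, IsClosed (L j : Set Γ)) (hZc : IsClosed (Z : Set Γ)) (g : Γ)
    (hg : ∀ J, g ∈ Z ⊔ L J) : g ∈ Z ⊔ ⨅ J, L J := by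
  let C : ℕ → Set Γ := fun J => (Z : Set Γ) ∩ {z | z⁻¹ * g ∈ (L J : Set Γ)}
  have hCc : ∀ J, IsClosed (C J) := fun J =>
    hZc.inter ((hLc J).preimage (continuous_inv.mul continuous_const))
  have hCn : ∀ J, (C J).Nonempty := by
    intro J
    have := hN J
    obtain ⟨z, hz, y, hy, hzy⟩ := Subgroup.mem_sup_of_normal_right.1 (hg J)
    refine ⟨z, hz, ?_⟩
    show z⁻¹ * g ∈ (L J : Set Γ)
    rw [← hzy]
    simpa using hy
  have hCd : ∀ i, C (i + 1) ⊆ C i := by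
    intro i z hz
    exact ⟨hz.1, hL (Nat.le_succ i) hz.2⟩
  obtain ⟨z, hz⟩ := IsCompact.nonempty_iInter_of_sequence_nonempty_isCompact_isClosed C hCd hCn
    (hCc 0).isCompact hCc
  rw [Set.mem_iInter] at hz
  have h1 : z ∈ Z := (hz 0).1
  have h2 : z⁻¹ * g ∈ ⨅ J, L J := by
    rw [Subgroup.mem_iInf]
    exact fun J => (hz J).2
  have h3 : g = z * (z⁻¹ * g) := by group
  rw [h3]
  exact Subgroup.mul_mem _ (Subgroup.mem_sup_left h1) (Subgroup.mem_sup_right h2)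

/-- Row CPT. -/
theorem CPT : CPT_stmt := by
  intro Γ _ _ _ _ L Z K hL hN hLc hZc hK
  -- the largest index
  obtain ⟨J₀, hJ₀⟩ : ∃ J₀, ∀ J, (Z ⊔ L J).index ≤ (Z ⊔ L J₀).index := by
    have hfin : (Set.range fun J => (Z ⊔ L J).index).Finite :=
      (Set.finite_Iic K).subset (by rintro _ ⟨J, rfl⟩; exact (hK J).2)
    obtain ⟨J₀, hJ₀⟩ := Set.exists_max_image (Set.range fun J => (Z ⊔ L J).index) id hfin
      ⟨_, ⟨0, rfl⟩⟩
    obtain ⟨⟨i, hi⟩, h⟩ := hJ₀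
    exact ⟨i, fun J => by
      have := h _ ⟨J, rfl⟩
      simpa [← hi] using this⟩
  have hanti : ∀ i j, i ≤ j → Z ⊔ L j ≤ Z ⊔ L i := fun i j hij => sup_le_sup_left (hL hij) Z
  have heq : ∀ J, J₀ ≤ J → Z ⊔ L J = Z ⊔ L J₀ := by
    intro J hJ
    have h1 := hanti J₀ J hJ
    have h2 : (Z ⊔ L J).relIndex (Z ⊔ L J₀) * (Z ⊔ L J₀).index = (Z ⊔ L J).index :=
      Subgroup.relIndex_mul_index h1
    have h3 := hJ₀ J
    have h4 : (Z ⊔ L J).relIndex (Z ⊔ L J₀) ≠ 0 := by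
      intro h0
      rw [h0, zero_mul] at h2
      exact (hK J).1 h2.symm
    have h5 : (Z ⊔ L J).relIndex (Z ⊔ L J₀) = 1 := by
      have hp : 0 < (Z ⊔ L J₀).index := Nat.pos_of_ne_zero (hK J₀).1
      have h6 : (Z ⊔ L J).relIndex (Z ⊔ L J₀) * (Z ⊔ L J₀).index ≤ 1 * (Z ⊔ L J₀).index := by
        rw [h2, one_mul]; exact h3
      have h7 := Nat.le_of_mul_le_mul_right h6 hp
      omega
    exact le_antisymm h1 (Subgroup.relIndex_eq_one.1 h5)
  have hmain : Z ⊔ ⨅ J, L J = Z ⊔ L J₀ := by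
    apply le_antisymm
    · exact sup_le_sup_left (iInf_le _ J₀) Z
    · intro g hg
      apply CPT_inf Γ L Z hL hN hLc hZc
      intro J
      rcases le_total J₀ J with h | h
      · rw [heq J h]; exact hg
      · exact hanti J J₀ h hg
  rw [hmain]
  exact hK J₀

end Pool.Agent.PU
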